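import Pool.Agent.W187.WQ.Stmts5
import Pool.Agent.W439.WP.R1

/-! WQ-R1g (helper440): bilinearity of the rational Weil form, general version -/

set_option autoImplicit false

namespace Pool.Agent.W440.WQ
open MeasureTheory Set Pool.Agent.W187.WP Pool.Agent.W187.WQ Pool.Agent.W439.WP

theorem Umm_cont (m : ℕ) : Continuous (Umm m) := by
  unfold Umm
  fun_prop

/-- the form in terms of these integrals -/
theorem Cg_eq (p : Prm) (ell : ℕ → ℝ) (v w : ℝ → ℝ) (hv : ContDiff ℝ 1 v)
    (hw : ContDiff ℝ 1 w) :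
    Cg p ell v w = 1 / 2 * Tr (K v w) + In (-1) 1 (fun x => Umm p.m x * (v x * w x))
      - (p.c2 : ℝ) * In (-1) 1 (fun x => v x * w x)
      - Tr (fun x y => ev p.bt (y - x) * ((v x * w y + v y * w x) / 2))
      - (∑ r ∈ Finset.range p.R, p.la r *
          In (-1) (1 - ell r) (fun x => v x * w (x + ell r) + w x * v (x + ell r)))
      + 2 * (p.a : ℝ) * (In (-1) 1 (fun x => v x * ev p.cp x) *
          In (-1) 1 (fun x => w x * ev p.cp x) -
        In (-1) 1 (fun x => v x * ev p.sp x) * In (-1) 1 (fun x => w x * ev p.sp x)) := by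
  rw [← Tr_congr _ _ (K_eq v w hv hw)]
  rfl

theorem Qg_eq (p : Prm) (ell : ℕ → ℝ) (v : ℝ → ℝ) (_hv : ContDiff ℝ 1 v) :
    Qg p ell v = Cg p ell v v := by
  have h1 : EE v = Tr (fun x y => (v y - v x) * (v y - v x) / (y - x)) := by
    unfold EE
    refine Tr_congr _ _ fun x y => ?_
    rw [sq]
  have h2 : (∫ x in (-1 : ℝ)..1, Umm p.m x * v x ^ 2) =
      ∫ x in (-1 : ℝ)..1, Umm p.m x * (v x * v x) := by
    congr 1
    funext x
    rw [sq]
  have h3 : (∫ x in (-1 : ℝ)..1, v x ^ 2) = ∫ x in (-1 : ℝ)..1, (v x * v x) := by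
    congr 1
    funext x
    rw [sq]
  have h4 : (∫ x in (-1 : ℝ)..1, (∫ y in x..1, ev p.bt (y - x) * (v x * v y))) =
      ∫ x in (-1 : ℝ)..1, (∫ y in x..1, ev p.bt (y - x) * ((v x * v y + v y * v x) / 2)) := by
    refine Tr_congr _ _ fun x y => ?_
    ring
  have h5 : (∑ r ∈ Finset.range p.R, 2 * p.la r *
        (∫ x in (-1 : ℝ)..(1 - ell r), v x * v (x + ell r))) =
      ∑ r ∈ Finset.range p.R, p.la r *
        (∫ x in (-1 : ℝ)..(1 - ell r), (v x * v (x + ell r) + v x * v (x + ell r))) := by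
    refine Finset.sum_congr rfl fun r _ => ?_
    have : 2 * (∫ x in (-1 : ℝ)..(1 - ell r), v x * v (x + ell r)) =
        ∫ x in (-1 : ℝ)..(1 - ell r), (v x * v (x + ell r) + v x * v (x + ell r)) := by
      rw [← intervalIntegral.integral_const_mul]
      congr 1
      funext x
      ring
    rw [← this]
    ring
  unfold Qg Cg
  rw [h1, h2, h3, h4, h5]
  unfold Tr
  ring

theorem Cg_add (p : Prm) (ell : ℕ → ℝ) (v v' w : ℝ → ℝ) (hv : ContDiff ℝ 1 v)
    (hv' : ContDiff ℝ 1 v') (hw : ContDiff ℝ 1 w) :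
    Cg p ell (fun x => v x + v' x) w = Cg p ell v w + Cg p ell v' w := by
  have cv := hv.continuous
  have cv' := hv'.continuous
  have cw := hw.continuous
  have cU := Umm_cont p.m
  have cb := continuous_ev p.bt
  have cc := continuous_ev p.cp
  have cs := continuous_ev p.sp
  rw [Cg_eq p ell _ w (hv.add hv') hw, Cg_eq p ell v w hv hw, Cg_eq p ell v' w hv' hw]
  have e1 : Tr (K (fun x => v x + v' x) w) = Tr (K v w) + Tr (K v' w) := by
    rw [← Tr_add _ _ (K_cont v w hv hw) (K_cont v' w hv' hw)]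
    exact Tr_congr _ _ (K_add v v' w hv hv' hw)
  have e2 : In (-1) 1 (fun x => Umm p.m x * ((v x + v' x) * w x)) =
      In (-1) 1 (fun x => Umm p.m x * (v x * w x)) +
        In (-1) 1 (fun x => Umm p.m x * (v' x * w x)) := by
    rw [← In_add _ _ _ _ (by fun_prop) (by fun_prop)]
    congr 1
    funext x
    ring
  have e3 : In (-1) 1 (fun x => (v x + v' x) * w x) =
      In (-1) 1 (fun x => v x * w x) + In (-1) 1 (fun x => v' x * w x) := by
    rw [← In_add _ _ _ _ (by fun_prop) (by fun_prop)]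
    congr 1
    funext x
    ring
  have e4 : Tr (fun x y => ev p.bt (y - x) * (((v x + v' x) * w y + (v y + v' y) * w x) / 2)) =
      Tr (fun x y => ev p.bt (y - x) * ((v x * w y + v y * w x) / 2)) +
      Tr (fun x y => ev p.bt (y - x) * ((v' x * w y + v' y * w x) / 2)) := by
    rw [← Tr_add _ _
      (by
        have : Continuous (fun q : ℝ × ℝ => ev p.bt (q.2 - q.1) *
          ((v q.1 * w q.2 + v q.2 * w q.1) / 2)) := by fun_prop
        exact this)
      (by
        have : Continuous (fun q : ℝ × ℝ => ev p.bt (q.2 - q.1) *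
          ((v' q.1 * w q.2 + v' q.2 * w q.1) / 2)) := by fun_prop
        exact this)]
    refine Tr_congr _ _ fun x y => ?_
    ring
  have e5 : (∑ r ∈ Finset.range p.R, p.la r *
        In (-1) (1 - ell r) (fun x => (v x + v' x) * w (x + ell r) +
          w x * (v (x + ell r) + v' (x + ell r)))) =
      (∑ r ∈ Finset.range p.R, p.la r *
        In (-1) (1 - ell r) (fun x => v x * w (x + ell r) + w x * v (x + ell r))) +
      (∑ r ∈ Finset.range p.R, p.la r *
        In (-1) (1 - ell r) (fun x => v' x * w (x + ell r) + w x * v' (x + ell r))) := by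
    rw [← Finset.sum_add_distrib]
    refine Finset.sum_congr rfl fun r _ => ?_
    rw [← mul_add, ← In_add _ _ _ _ (by fun_prop) (by fun_prop)]
    congr 2
    funext x
    ring
  have e6 : In (-1) 1 (fun x => (v x + v' x) * ev p.cp x) =
      In (-1) 1 (fun x => v x * ev p.cp x) + In (-1) 1 (fun x => v' x * ev p.cp x) := by
    rw [← In_add _ _ _ _ (by fun_prop) (by fun_prop)]
    congr 1
    funext x
    ring
  have e7 : In (-1) 1 (fun x => (v x + v' x) * ev p.sp x) =
      In (-1) 1 (fun x => v x * ev p.sp x) + In (-1) 1 (fun x => v' x * ev p.sp x) := by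
    rw [← In_add _ _ _ _ (by fun_prop) (by fun_prop)]
    congr 1
    funext x
    ring
  rw [e1, e2, e3, e4, e5, e6, e7]
  ring

theorem Cg_smul (p : Prm) (ell : ℕ → ℝ) (c : ℝ) (v w : ℝ → ℝ) (hv : ContDiff ℝ 1 v)
    (hw : ContDiff ℝ 1 w) : Cg p ell (fun x => c * v x) w = c * Cg p ell v w := by
  rw [Cg_eq p ell _ w (contDiff_const.mul hv) hw, Cg_eq p ell v w hv hw]
  have e1 : Tr (K (fun x => c * v x) w) = c * Tr (K v w) := by
    rw [← Tr_smul]
    exact Tr_congr _ _ (K_smul c v w hv hw)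
  have e2 : In (-1) 1 (fun x => Umm p.m x * (c * v x * w x)) =
      c * In (-1) 1 (fun x => Umm p.m x * (v x * w x)) := by
    rw [← In_smul]
    congr 1
    funext x
    ring
  have e3 : In (-1) 1 (fun x => c * v x * w x) = c * In (-1) 1 (fun x => v x * w x) := by
    rw [← In_smul]
    congr 1
    funext x
    ring
  have e4 : Tr (fun x y => ev p.bt (y - x) * ((c * v x * w y + c * v y * w x) / 2)) =
      c * Tr (fun x y => ev p.bt (y - x) * ((v x * w y + v y * w x) / 2)) := by
    rw [← Tr_smul]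
    refine Tr_congr _ _ fun x y => ?_
    ring
  have e5 : (∑ r ∈ Finset.range p.R, p.la r *
        In (-1) (1 - ell r) (fun x => c * v x * w (x + ell r) + w x * (c * v (x + ell r)))) =
      c * (∑ r ∈ Finset.range p.R, p.la r *
        In (-1) (1 - ell r) (fun x => v x * w (x + ell r) + w x * v (x + ell r))) := by
    rw [Finset.mul_sum]
    refine Finset.sum_congr rfl fun r _ => ?_
    rw [mul_left_comm c, ← In_smul _ _ c]
    congr 2
    funext x
    ring
  have e6 : In (-1) 1 (fun x => c * v x * ev p.cp x) =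
      c * In (-1) 1 (fun x => v x * ev p.cp x) := by
    rw [← In_smul]
    congr 1
    funext x
    ring
  have e7 : In (-1) 1 (fun x => c * v x * ev p.sp x) =
      c * In (-1) 1 (fun x => v x * ev p.sp x) := by
    rw [← In_smul]
    congr 1
    funext x
    ring
  rw [e1, e2, e3, e4, e5, e6, e7]
  ring

theorem Cg_comm (p : Prm) (ell : ℕ → ℝ) (v w : ℝ → ℝ) : Cg p ell v w = Cg p ell w v := by
  have e1 : (∫ x in (-1 : ℝ)..1, (∫ y in x..1, (v y - v x) * (w y - w x) / (y - x))) =
      ∫ x in (-1 : ℝ)..1, (∫ y in x..1, (w y - w x) * (v y - v x) / (y - x)) := by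
    refine Tr_congr _ _ fun x y => ?_
    rw [mul_comm (v y - v x)]
  have e2 : (∫ x in (-1 : ℝ)..1, Umm p.m x * (v x * w x)) =
      ∫ x in (-1 : ℝ)..1, Umm p.m x * (w x * v x) := by
    congr 1
    funext x
    ring
  have e3 : (∫ x in (-1 : ℝ)..1, v x * w x) = ∫ x in (-1 : ℝ)..1, w x * v x := by
    congr 1
    funext x
    ring
  have e4 : (∫ x in (-1 : ℝ)..1, (∫ y in x..1, ev p.bt (y - x) *
        ((v x * w y + v y * w x) / 2))) =
      ∫ x in (-1 : ℝ)..1, (∫ y in x..1, ev p.bt (y - x) * ((w x * v y + w y * v x) / 2)) := by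
    refine Tr_congr _ _ fun x y => ?_
    ring
  have e5 : (∑ r ∈ Finset.range p.R, p.la r *
        (∫ x in (-1 : ℝ)..(1 - ell r), (v x * w (x + ell r) + w x * v (x + ell r)))) =
      ∑ r ∈ Finset.range p.R, p.la r *
        (∫ x in (-1 : ℝ)..(1 - ell r), (w x * v (x + ell r) + v x * w (x + ell r))) := by
    refine Finset.sum_congr rfl fun r _ => ?_
    congr 2
    funext x
    ring
  unfold Cg
  rw [e1, e2, e3, e4, e5]
  ring

theorem r1g : S_R1g := by
  intro p ell
  refine ⟨fun v w hv hw => ?_, Qg_eq p ell, Cg_add p ell, Cg_smul p ell⟩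
  rw [Qg_eq p ell _ (hv.add hw), Cg_add p ell v w _ hv hw (hv.add hw), Cg_comm p ell v,
    Cg_comm p ell w, Cg_add p ell v w v hv hw hv, Cg_add p ell v w w hv hw hw,
    Cg_comm p ell w v, Qg_eq p ell v hv, Qg_eq p ell w hw]
  ring

end Pool.Agent.W440.WQ
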